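import Pool.Agent.Lib.MP_a31e1e_gt.Interfaces

/-! Module CLOPEN of project TIGHT (MP_a31e1e_gt), helper64. -/

open scoped ContDiff Manifold Topology RealInnerProductSpace
open Set Metric

namespace Pool.Agent.Tight.H64

theorem clopen : ClopenStatement := by
  intro P A U hA hne hU hAU hZ
  have hsub : A ⊆ ZeroSet P := fun x hx => (hZ x (hAU hx)).2 hx
  have hclosed : IsClosed A := hA.isClosed
  refine ⟨?_, hsub, ?_⟩
  · rintro rfl
    have hUA : U ⊆ A := by
      intro x hx
      refine (hZ x hx).1 ?_
      simp [ZeroSet]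
    have hAeq : A = U := Subset.antisymm hAU hUA
    have hopen : IsOpen A := by rw [hAeq]; exact hU
    have huniv : A = Set.univ := IsClopen.eq_univ ⟨hclosed, hopen⟩ hne
    rw [huniv] at hA
    exact noncompact_univ E3 hA
  · intro x hx
    have hpre : IsPreconnected (connectedComponentIn (ZeroSet P) x) :=
      isPreconnected_connectedComponentIn
    have hCZ : connectedComponentIn (ZeroSet P) x ⊆ ZeroSet P := connectedComponentIn_subset _ _
    have hxC : x ∈ connectedComponentIn (ZeroSet P) x := mem_connectedComponentIn (hsub hx)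
    by_contra hnot
    rw [Set.not_subset] at hnot
    obtain ⟨y, hyC, hyA⟩ := hnot
    obtain ⟨w, hwC, hwU, hwA⟩ := hpre U Aᶜ hU hclosed.isOpen_compl
      (by
        intro w hw
        by_cases h : w ∈ A
        · exact Or.inl (hAU h)
        · exact Or.inr h)
      ⟨x, hxC, hAU hx⟩ ⟨y, hyC, hyA⟩
    exact hwA ((hZ w hwU).1 (hCZ hwC))

end Pool.Agent.Tight.H64
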