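import Pool.Agent.Lib.MP_a31e1e_gt.Interfaces

/-! Module FACE of project TIGHT (MP_a31e1e_gt), helper64. -/

open scoped ContDiff Manifold Topology RealInnerProductSpace
open Set Metric

namespace Pool.Agent.Tight.H64

/-- the gradients of the `ell j` -/
noncomputable def nrm (j : Fin 3) : E3 :=
  match j with
  | 0 => !₂[0, -1, 0]
  | 1 => !₂[√3 / 2, 1 / 2, 0]
  | 2 => !₂[-(√3 / 2), 1 / 2, 0]

theorem inner3 (a b : E3) : ⟪a, b⟫ = a 0 * b 0 + a 1 * b 1 + a 2 * b 2 := by
  simp [PiLp.inner_apply, Fin.sum_univ_three]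
  ring

theorem ell_eq (j : Fin 3) (x : E3) : ell j x = 1 + ⟪nrm j, x⟫ := by
  fin_cases j
  · simp [ell, nrm, inner3]; ring
  · simp [ell, nrm, inner3]; ring
  · simp [ell, nrm, inner3]; ring

theorem nrm_sq (j : Fin 3) : ⟪nrm j, nrm j⟫ = 1 := by
  have h3 : √3 * √3 = 3 := Real.mul_self_sqrt (by norm_num)
  rw [inner3]
  fin_cases j
  · simp [nrm]
  · simp [nrm]; nlinarith
  · simp [nrm]; nlinarith

theorem continuous_ell (j : Fin 3) : Continuous (ell j) := by
  have : ell j = fun x => 1 + ⟪nrm j, x⟫ := funext fun x => ell_eq j x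
  rw [this]
  exact continuous_const.add (continuous_const.inner continuous_id)

theorem cont_coord (i : Fin 3) : Continuous fun x : E3 => x i :=
  (EuclideanSpace.proj i : E3 →L[ℝ] ℝ).continuous

theorem continuous_nn : Continuous nn := by
  unfold nn
  exact ((cont_coord 0).pow 2).add ((cont_coord 1).pow 2)

theorem continuous_tt : Continuous tt := by
  unfold tt cc
  exact (continuous_const.sub (continuous_const.mul continuous_nn)).sub
    (((cont_coord 1).pow 3).sub ((continuous_const.mul ((cont_coord 0).pow 2)).mul (cont_coord 1)))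

theorem continuous_mm : Continuous mm := by
  unfold mm
  exact ((((cont_coord 2).pow 2).add (continuous_const.mul continuous_nn)).sub continuous_const)

theorem continuous_Lam : Continuous Lam := by
  unfold Lam
  exact continuous_mm.sub (continuous_const.mul (Real.continuous_sqrt.comp continuous_tt))

theorem isClosed_Prism : IsClosed Prism := by
  have : Prism = ⋂ j, {x | 0 ≤ ell j x} := by
    ext x; simp [Prism]
  rw [this]
  exact isClosed_iInter fun j => isClosed_le continuous_const (continuous_ell j)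

theorem isOpen_PrismO : IsOpen PrismO := by
  have : PrismO = ⋂ j, {x | 0 < ell j x} := by
    ext x; simp [PrismO]
  rw [this]
  exact isOpen_iInter_of_finite fun j => isOpen_lt continuous_const (continuous_ell j)

theorem isClosed_Hull : IsClosed Hull := by
  have : Hull = Prism ∩ {x | Lam x ≤ 0} := rfl
  rw [this]
  exact isClosed_Prism.inter (isClosed_le continuous_Lam continuous_const)

theorem isCompact_Hull (hsig : SigRegStatement) : IsCompact Hull := by
  refine Metric.isCompact_of_isClosed_isBounded isClosed_Hull ?_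
  refine (Metric.isBounded_closedBall (x := (0 : E3)) (r := 5)).subset ?_
  intro x hx
  rw [mem_closedBall_zero_iff]
  exact hsig.2.2.2.2.2.2.1 x hx

theorem zero_mem_Hull : (0 : E3) ∈ Hull := by
  refine ⟨?_, ?_⟩
  · intro j
    rw [ell_eq, inner_zero_right]
    norm_num
  · have h1 : mm (0 : E3) = -9 := by simp [mm, nn]
    rw [Lam, h1]
    have := Real.sqrt_nonneg (tt (0 : E3))
    linarith

theorem varpi_nonneg (l : ℝ) (x : E3) : 0 ≤ varpi l x := by
  unfold varpi flc flr nn
  positivity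

theorem psiOK_mono' {ϖ : E3 → ℝ} {ε ε' : ℝ} {ψ θ : E3 → E3} (hϖ : ∀ x, 0 ≤ ϖ x) (hε : ε ≤ ε')
    (h : PsiOK ϖ ε ψ θ) : PsiOK ϖ ε' ψ θ where
  smooth := h.smooth
  smooth' := h.smooth'
  left := h.left
  right := h.right
  b0 := fun x => (h.b0 x).trans (mul_le_mul_of_nonneg_right hε (hϖ x))
  b1 := fun x => (h.b1 x).trans (mul_le_mul_of_nonneg_right hε (hϖ x))
  b2 := fun x => (h.b2 x).trans (mul_le_mul_of_nonneg_right hε (hϖ x))
  far := h.far
  flat := h.flat

/-- a point of the prism with `mm < 0` lies on at most one face -/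
theorem other_pos {z : E3} (hz : z ∈ Prism) {j : Fin 3} (hj : ell j z = 0) (hm : mm z < 0)
    {i : Fin 3} (hij : i ≠ j) : 0 < ell i z := by
  rcases (hz i).lt_or_eq with h | h
  · exact h
  · exfalso
    have h3 : √3 * √3 = 3 := Real.mul_self_sqrt (by norm_num)
    have hw := sq_nonneg (z 2)
    have hi : ell i z = 0 := h.symm
    have key : 4 ≤ nn z := by
      fin_cases i <;> fin_cases j <;> simp [ell] at hi hj hij <;> unfold nn
      · have e1 : z 1 = 1 := by linarith
        have e2 : √3 * z 0 = -3 := by rw [e1] at hj; linarith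
        have e3 : 3 * z 0 ^ 2 = 9 := by
          have : (√3 * z 0) ^ 2 = 9 := by rw [e2]; norm_num
          nlinarith
        nlinarith
      · have e1 : z 1 = 1 := by linarith
        have e2 : √3 * z 0 = 3 := by rw [e1] at hj; linarith
        have e3 : 3 * z 0 ^ 2 = 9 := by
          have : (√3 * z 0) ^ 2 = 9 := by rw [e2]; norm_num
          nlinarith
        nlinarith
      · have e1 : z 1 = 1 := by linarith
        have e2 : √3 * z 0 = -3 := by rw [e1] at hi; linarith
        have e3 : 3 * z 0 ^ 2 = 9 := by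
          have : (√3 * z 0) ^ 2 = 9 := by rw [e2]; norm_num
          nlinarith
        nlinarith
      · have e1 : z 1 = -2 := by linarith
        nlinarith [sq_nonneg (z 0)]
      · have e1 : z 1 = 1 := by linarith
        have e2 : √3 * z 0 = 3 := by rw [e1] at hi; linarith
        have e3 : 3 * z 0 ^ 2 = 9 := by
          have : (√3 * z 0) ^ 2 = 9 := by rw [e2]; norm_num
          nlinarith
        nlinarith
      · have e1 : z 1 = -2 := by linarith
        nlinarith [sq_nonneg (z 0)]
    unfold mm at hm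
    nlinarith

theorem tt_zero (hsig : SigRegStatement) {z : E3} {j : Fin 3} (hj : ell j z = 0) : tt z = 0 := by
  rw [hsig.1 z]
  fin_cases j <;> simp at hj <;> simp [hj]

/-- the key lemma: a maximiser in the relative interior of a disc -/
theorem face_of_disc (hsig : SigRegStatement) {ψ : E3 → E3} (hψ : Continuous ψ)
    (hsign : ∀ x j, (0 < ell j x → ell j x / 2 ≤ ell j (ψ x)) ∧ (ell j x = 0 → ψ x = x) ∧
      (ell j x < 0 → ell j (ψ x) < 0)) {v z : E3} (hv : v ≠ 0) {j : Fin 3} (hz : z ∈ Prism)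
    (hj : ell j z = 0) (hm : mm z < 0) (hmax : ∀ y, ψ y ∈ Hull → ⟪v, y⟫ ≤ ⟪v, z⟫) :
    ∀ y, (⟪v, y⟫ = ⟪v, z⟫ ↔ ell j y = 0) := by
  have hψz : ψ z = z := (hsign z j).2.1 hj
  have hLz : Lam z < 0 := by
    unfold Lam
    rw [tt_zero hsig hj, Real.sqrt_zero]
    linarith
  -- the neighbourhood
  have hev : ∀ᶠ y in 𝓝 z, 0 ≤ ell j y → ψ y ∈ Hull := by
    have h1 : ∀ᶠ y in 𝓝 z, Lam (ψ y) < 0 := by
      have hc : ContinuousAt (fun y => Lam (ψ y)) z := (continuous_Lam.comp hψ).continuousAt
      exact hc.eventually_lt continuousAt_const (by rw [hψz]; exact hLz)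
    have h2 : ∀ i, i ≠ j → ∀ᶠ y in 𝓝 z, 0 < ell i (ψ y) := by
      intro i hi
      have hc : ContinuousAt (fun y => ell i (ψ y)) z := ((continuous_ell i).comp hψ).continuousAt
      exact continuousAt_const.eventually_lt hc (by rw [hψz]; exact other_pos hz hj hm hi)
    have h3 : ∀ᶠ y in 𝓝 z, ∀ i, i ≠ j → 0 < ell i (ψ y) := by
      rw [Filter.eventually_all]
      intro i
      by_cases hi : i = j
      · exact Filter.Eventually.of_forall fun y h => absurd hi h
      · filter_upwards [h2 i hi] with y hy _ using hy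
    filter_upwards [h1, h3] with y hy1 hy3 hy
    refine ⟨?_, hy1.le⟩
    intro i
    by_cases hi : i = j
    · subst hi
      rcases hy.lt_or_eq with h | h
      · have := (hsign y i).1 h
        linarith
      · rw [(hsign y i).2.1 h.symm]
        exact hy
    · exact (hy3 i hi).le
  -- directions
  have hdir : ∀ d : E3, 0 ≤ ⟪nrm j, d⟫ → ⟪v, d⟫ ≤ 0 := by
    intro d hd
    have hc : Filter.Tendsto (fun t : ℝ => z + t • d) (𝓝[>] 0) (𝓝 z) := by
      have hcc : ContinuousAt (fun t : ℝ => z + t • d) 0 := by fun_prop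
      have h0 : z + (0 : ℝ) • d = z := by simp
      have := hcc.tendsto
      rw [h0] at this
      exact this.mono_left nhdsWithin_le_nhds
    have h1 := hc.eventually hev
    obtain ⟨t, ht1, ht2⟩ := (h1.and self_mem_nhdsWithin).exists
    have ht2' : 0 < t := ht2
    have h2 : 0 ≤ ell j (z + t • d) := by
      have e := ell_eq j z
      rw [hj] at e
      rw [ell_eq, inner_add_right, inner_smul_right]
      have := mul_nonneg ht2'.le hd
      linarith
    have h3 := hmax _ (ht1 h2)
    rw [inner_add_right, inner_smul_right] at h3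
    have h4 : t * ⟪v, d⟫ ≤ 0 := by linarith
    by_contra hcon
    push Not at hcon
    have := mul_pos ht2' hcon
    linarith
  set μ : ℝ := ⟪nrm j, v⟫ with hμ
  have hvn : v = μ • nrm j := by
    have h1 : ⟪nrm j, v - μ • nrm j⟫ = 0 := by
      rw [inner_sub_right, inner_smul_right, nrm_sq, ← hμ]
      ring
    have h2 := hdir (v - μ • nrm j) h1.ge
    have h3 : ⟪v - μ • nrm j, v - μ • nrm j⟫ ≤ 0 := by
      rw [inner_sub_left, inner_smul_left, h1]
      simpa using h2
    have h4 : v - μ • nrm j = 0 := by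
      rw [real_inner_self_eq_norm_sq] at h3
      have h5 : ‖v - μ • nrm j‖ = 0 := by
        have := norm_nonneg (v - μ • nrm j)
        nlinarith
      exact norm_eq_zero.1 h5
    exact sub_eq_zero.1 h4
  have hμ0 : μ ≠ 0 := by
    intro h
    apply hv
    rw [hvn, h, zero_smul]
  intro y
  have e1 : ∀ x : E3, ⟪v, x⟫ = μ * (ell j x - 1) := by
    intro x
    rw [ell_eq]
    conv_lhs => rw [hvn]
    rw [inner_smul_left]
    simp
  rw [e1 y, e1 z, hj]
  constructor
  · intro h
    have h2 : μ * ell j y = 0 := by linarith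
    rcases mul_eq_zero.1 h2 with h3 | h3
    · exact absurd h3 hμ0
    · exact h3
  · intro h
    rw [h]

/-- a maximiser is not an interior point -/
theorem not_interior {ψ : E3 → E3} (hψ : Continuous ψ) {v z : E3} (hv : v ≠ 0)
    (hz : ψ z ∈ PrismO) (hL : Lam (ψ z) < 0) (hmax : ∀ y, ψ y ∈ Hull → ⟪v, y⟫ ≤ ⟪v, z⟫) :
    False := by
  have hev : ∀ᶠ y in 𝓝 z, ψ y ∈ Hull := by
    have h1 : ∀ᶠ y in 𝓝 z, Lam (ψ y) < 0 := by
      have hc : ContinuousAt (fun y => Lam (ψ y)) z := (continuous_Lam.comp hψ).continuousAt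
      exact hc.eventually_lt continuousAt_const hL
    have h2 : ∀ᶠ y in 𝓝 z, ψ y ∈ PrismO := hψ.continuousAt.eventually (isOpen_PrismO.mem_nhds hz)
    filter_upwards [h1, h2] with y hy1 hy2
    exact ⟨fun i => (hy2 i).le, hy1.le⟩
  have hc : Filter.Tendsto (fun t : ℝ => z + t • v) (𝓝[>] 0) (𝓝 z) := by
    have hcc : ContinuousAt (fun t : ℝ => z + t • v) 0 := by fun_prop
    have h0 : z + (0 : ℝ) • v = z := by simp
    have := hcc.tendsto
    rw [h0] at this
    exact this.mono_left nhdsWithin_le_nhds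
  obtain ⟨t, ht1, ht2⟩ := ((hc.eventually hev).and self_mem_nhdsWithin).exists
  have ht2' : 0 < t := ht2
  have h3 := hmax _ ht1
  rw [inner_add_right, inner_smul_right] at h3
  have h4 : 0 < ⟪v, v⟫ := by
    rw [real_inner_self_eq_norm_sq]
    have : 0 < ‖v‖ := norm_pos_iff.2 hv
    positivity
  have := mul_pos ht2' h4
  linarith

theorem face (hconv : ConvStatement) (hsign : SignStatement) (hsig : SigRegStatement) :
    FaceStatement := by
  intro l hl hl1
  obtain ⟨ε1, hε1, hC⟩ := hconv l hl hl1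
  obtain ⟨ε2, hε2, hS⟩ := hsign l hl hl1
  refine ⟨min ε1 ε2, lt_min hε1 hε2, ?_⟩
  intro ψ θ hψ v hv
  have hψ1 : PsiOK (varpi l) ε1 ψ θ := psiOK_mono' (varpi_nonneg l) (min_le_left _ _) hψ
  have hψ2 : PsiOK (varpi l) ε2 ψ θ := psiOK_mono' (varpi_nonneg l) (min_le_right _ _) hψ
  have hC' := hC ψ θ hψ1
  have hS' := hS ψ θ hψ2
  have hcont : Continuous ψ := hψ.smooth.continuous
  have hcont' : Continuous θ := hψ.smooth'.continuous
  have hcomp : IsCompact (θ '' Hull) := (isCompact_Hull hsig).image hcont'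
  have hne : (θ '' Hull).Nonempty := ⟨θ 0, 0, zero_mem_Hull, rfl⟩
  obtain ⟨y₀, hy₀, hmax₀⟩ := hcomp.exists_isMaxOn hne
    (continuous_const.inner continuous_id : Continuous fun y : E3 => ⟪v, y⟫).continuousOn
  have hmem : ∀ y, ψ y ∈ Hull → y ∈ θ '' Hull := fun y hy => ⟨ψ y, hy, hψ.left y⟩
  have hy₀' : ψ y₀ ∈ Hull := by
    obtain ⟨x, hx, rfl⟩ := hy₀
    rwa [hψ.right]
  have hmax : ∀ y, ψ y ∈ Hull → ⟪v, y⟫ ≤ ⟪v, y₀⟫ := fun y hy => hmax₀ (hmem y hy)
  refine ⟨y₀, hy₀', hmax, ?_⟩
  have hfix : ∀ y, ψ y ∈ Hull → ∀ j, ell j y = 0 → y ∈ Hull := by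
    intro y hy j hj
    rwa [(hS' y j).2.1 hj] at hy
  by_cases huniq : ∀ y, ψ y ∈ Hull → ⟪v, y⟫ = ⟪v, y₀⟫ → y = y₀
  · rcases hy₀'.2.lt_or_eq with hL | hL
    · right
      by_cases hO : ψ y₀ ∈ PrismO
      · exact (not_interior hcont hv hO hL hmax).elim
      · have : ∃ j, ¬ 0 < ell j (ψ y₀) := by
          by_contra h
          push Not at h
          exact hO h
        obtain ⟨j, hj⟩ := this
        have hj0 : ell j (ψ y₀) = 0 := le_antisymm (not_lt.1 hj) (hy₀'.1 j)
        have hj1 : ell j y₀ = 0 := by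
          rcases lt_trichotomy (ell j y₀) 0 with h | h | h
          · have := (hS' y₀ j).2.2 h
            linarith
          · exact h
          · have := (hS' y₀ j).1 h
            linarith
        have hψy : ψ y₀ = y₀ := (hS' y₀ j).2.1 hj1
        rw [hψy] at hL
        have hm : mm y₀ < 0 := by
          unfold Lam at hL
          rw [tt_zero hsig hj1, Real.sqrt_zero] at hL
          linarith
        refine ⟨j, fun y _ => ?_⟩
        exact face_of_disc hsig hcont hS' hv (hfix y₀ hy₀' j hj1).1 hj1 hm hmax y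
    · exact Or.inl ⟨hL, huniq⟩
  · right
    push Not at huniq
    obtain ⟨y₁, hy₁, hy₁v, hne₁⟩ := huniq
    rcases hC' y₀ y₁ hy₀' hy₁ (Ne.symm hne₁) (1 / 2) (by norm_num) (by norm_num) with h | h
    · exfalso
      refine not_interior (z := (1 - (1 / 2 : ℝ)) • y₀ + (1 / 2 : ℝ) • y₁) hcont hv h.1 h.2 ?_
      intro y hy
      have h1 := hmax y hy
      rw [inner_add_right, inner_smul_right, inner_smul_right, hy₁v]
      linarith
    · obtain ⟨j, hj0, hj1, hz, hm⟩ := h
      have hy₀H := hfix y₀ hy₀' j hj0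
      have hy₁H := hfix y₁ hy₁ j hj1
      have hell : ∀ i, ell i ((1 - (1 / 2 : ℝ)) • y₀ + (1 / 2 : ℝ) • y₁)
          = (ell i y₀ + ell i y₁) / 2 := by
        intro i
        rw [ell_eq, ell_eq, ell_eq, inner_add_right, inner_smul_right, inner_smul_right]
        ring
      have hval : ⟪v, (1 - (1 / 2 : ℝ)) • y₀ + (1 / 2 : ℝ) • y₁⟫ = ⟪v, y₀⟫ := by
        rw [inner_add_right, inner_smul_right, inner_smul_right, hy₁v]
        ring
      refine ⟨j, fun y _ => ?_⟩
      have := face_of_disc hsig hcont hS' hv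
        (z := (1 - (1 / 2 : ℝ)) • y₀ + (1 / 2 : ℝ) • y₁) (j := j)
        (fun i => by rw [hell]; have := hy₀H.1 i; have := hy₁H.1 i; linarith)
        (by rw [hell, hj0, hj1]; norm_num) hm
        (fun y hy => by rw [hval]; exact hmax y hy) y
      rwa [hval] at this

end Pool.Agent.Tight.H64
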